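import Pool.Agent.H70.Afd.Final

/-!
# The local degree of a generic smooth map of `ℝⁿ` need not be realised: answer to Q2

The definitions (Whitney topology, critical points, regular values, local degree, property (R)) are in
`Pool/Agent/H70/Afd/Defs.lean`.

Idea: for `n ≥ 64` there is a Whitney open set of maps `F : ℝⁿ → ℝⁿ` having a point `x` at which the
derivative has corank `8` and the second derivative, restricted to the kernel `K` and projected to the
cokernel, is close to a quadratic map `Q : ℝ⁸ → ℝ⁸` without non-trivial zeros.  This `Q` is chosen
close to a quadratic map whose components all vanish on `58` real lines that impose only `56`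
conditions on quadratic forms, in such a way that every map `Q + (linear) + (constant) +
(small error)` has a zero near the origin, while an orientation reversing symmetry forces the local
degree to be `0`.
-/

open Set Filter Topology
open scoped ContDiff

namespace Pool.Agent.Results.MP_afd482_gt.GenericMaps

open Pool.Agent.H70.Afd

/-- **Negative answer to Q2.** Let `n ≥ 64`. The set of smooth maps `F : ℝⁿ → ℝⁿ` having property
(R) at every critical point isolated in its fibre is not residual in the Whitney `C^∞` topology.
Moreover all maps `F` in some non-empty Whitney open set have a critical point `x`, isolated in its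
fibre, at which the local degree can only be `0`, such that all values close to `F x` have a preimage
in any given neighbourhood of `x`; so (R) fails at `x`. -/
theorem result (n : ℕ) (hn : 64 ≤ n) :
    {F : SmoothMap n | RProperty F} ∉ residual (SmoothMap n) ∧
    ∃ O : Set (SmoothMap n), IsOpen O ∧ O.Nonempty ∧
      ∀ F ∈ O, ∃ x, IsCriticalPt F.1 x ∧ IsIsolatedInFibre F.1 x ∧
        (∀ k, HasLocalDegree F.1 x k → k = 0) ∧
        (∀ U ∈ 𝓝 x, ∀ᶠ y in 𝓝 (F.1 x), (U ∩ F.1 ⁻¹' {y}).Nonempty) ∧
        ¬ PropertyR F.1 x :=
  ⟨main n hn, exists_open_bad hn⟩

end Pool.Agent.Results.MP_afd482_gt.GenericMaps
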